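import Pool.Agent.H29.SX.Targets

/-! Row COL of board shx_modules. -/

set_option autoImplicit false

namespace Pool.Agent.H69.SX

open NumberField Height Finset Polynomial Pool.Agent.H24.RD Pool.Agent.H23.RDD Pool.Agent.H29.RQ
  Pool.Agent.H29.SX

lemma pt_comp {A B R : Type} [AddCommGroup A] [AddCommGroup B] [CommRing R] (L : B →+ A)
    {y : A → R} (hy : IsPt y) : IsPt fun b => y (L b) where
  zero := by
    change y (L 0) = 1
    rw [map_zero, hy.zero]
  add a b := by
    change y (L (a + b)) = y (L a) * y (L b)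
    rw [map_add, hy.add]

lemma nm_comp {A B : Type} [AddCommGroup A] [AddCommGroup B] (L : B →+ A)
    (hL : Function.Injective L) {N : A → ℝ} (hN : IsNm N) : IsNm fun b => N (L b) where
  neg a := by
    change N (L (-a)) = N (L a)
    rw [map_neg, hN.neg]
  add a b := by
    change N (L (a + b)) ≤ N (L a) + N (L b)
    rw [map_add]
    exact hN.add _ _
  nsm q a := by
    change N (L (q • a)) = q * N (L a)
    rw [map_nsmul, hN.nsm]
  fin ρ := (hN.fin ρ).preimage hL.injOn

lemma nm_zero {A : Type} [AddCommGroup A] {N : A → ℝ} (hN : IsNm N) : N 0 = 0 := by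
  have h := hN.nsm 0 0
  rw [zero_smul, Nat.cast_zero, zero_mul] at h
  exact h

lemma jc_mem (K : Type) {Ω : Type} [Field K] [Field Ω] [Algebra K Ω] {m : ℕ} (κ : Fin m → ℕ)
    (a : Fin m → ℤ) (W : Submodule K Ω) (z : Ω) (hz : z ∈ W) : jc Ω κ a * z ∈ W := by
  have h : jc Ω κ a = algebraMap K Ω ((∏ l, (a l) ^ (κ l) : ℤ) : K) := by
    unfold jc
    rw [map_intCast]
    push_cast
    rfl
  rw [h, ← Algebra.smul_def]
  exact W.smul_mem _ hz

lemma single_spt {A K : Type} [Field K] (N : A → ℝ) (ρ : ℝ) (a : A) (ha : N a ≤ ρ) :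
    Spt N ρ (Finsupp.single a (1 : K)) := by
  classical
  intro b hb
  have : b = a := by
    have := Finsupp.support_single_subset hb
    exact Finset.mem_singleton.mp this
  rw [this]
  exact ha

lemma ev_single (K : Type) {A R : Type} [Field K] [CommRing R] [Algebra K R] (y : A → R) (a : A) :
    ev K y (Finsupp.single a (1 : K)) = y a := by
  unfold ev
  rw [Finsupp.sum_single_index (by simp), map_one, one_mul]

/-- Iterated products. -/
lemma mul_many (h1 : T_MUJ) (K Ω : Type) [Field K] [Field Ω] [Algebra K Ω] (m' m : ℕ)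
    (L : (Fin m' → ℤ) →+ (Fin m → ℤ)) (N : (Fin m' → ℤ) → ℝ) (hN : IsNm N)
    (y : (Fin m' → ℤ) → Ω) (hy : IsPt y) (f : ℕ → (Fin m' → ℤ) →₀ K) (ρ₁ ρ₂ : ℝ)
    (n : ℕ) (hf : ∀ c, 1 ≤ c → c ≤ n → Spt N ρ₁ (f c)) (h : (Fin m' → ℤ) →₀ K)
    (hh : Spt N ρ₂ h) : ∃ k : (Fin m' → ℤ) →₀ K, Spt N (n * ρ₁ + ρ₂) k ∧
      ∀ z : (Fin m' → ℤ) → Ω, IsPt z →
        ev K z k = (∏ c ∈ range n, ev K z (f (c + 1))) * ev K z h := by
  induction n with
  | zero =>
    refine ⟨h, ?_, ?_⟩
    · rw [Nat.cast_zero, zero_mul, zero_add]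
      exact hh
    · intro z _
      rw [range_zero, prod_empty, one_mul]
  | succ n ih =>
    obtain ⟨k, hk1, hk2⟩ := ih (fun c hc hc' => hf c hc (by omega))
    obtain ⟨k', hk'1, hk'2, -⟩ := h1 K Ω m' m L N hN y hy 1 (f (n + 1)) k ρ₁ (n * ρ₁ + ρ₂)
      (hf (n + 1) (by omega) le_rfl) hk1
    refine ⟨k', ?_, ?_⟩
    · have : ((n + 1 : ℕ) : ℝ) * ρ₁ + ρ₂ = ((1 : ℕ) : ℝ) * ρ₁ + (n * ρ₁ + ρ₂) := by
        push_cast
        ring
      rw [this]
      exact hk'1
    · intro z hz
      rw [hk'2 z hz, hk2 z hz, prod_range_succ, pow_one]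
      ring

theorem pf_COL (h1 : T_MUJ) (h2 : T_FIL) : T_COL := by
  intro K Ω _ _ _ _ m' m L hL N hN y hy s t ht ρ hρ hsep hrk
  classical
  set NL : (Fin m' → ℤ) → ℝ := fun a => N (L a) with hNL
  have hNLn : IsNm NL := nm_comp L hL hN
  have hfin : {a | NL a ≤ ρ}.Finite := hNLn.fin ρ
  let S : Type := {a : Fin m' → ℤ // NL a ≤ ρ}
  haveI : Fintype S := hfin.fintype
  set W : Submodule K Ω := WW K (fun a => y 0 (L a)) NL ρ with hW
  have hWfin : FiniteDimensional K W :=
    FiniteDimensional.span_of_finite K (hfin.image _)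
  set r0 : ℕ := Module.finrank K W with hr0
  have hyW : ∀ a : S, y 0 (L a.1) ∈ W := fun a =>
    Submodule.subset_span ⟨a.1, a.2, rfl⟩
  have hr01 : 1 ≤ r0 := by
    have h3 : (1 : Ω) ∈ W := by
      have h4 : y 0 (L 0) ∈ W := Submodule.subset_span ⟨0, by
        change N (L 0) ≤ ρ
        rw [map_zero, nm_zero hN]
        exact hρ, rfl⟩
      rw [map_zero, (hy 0).zero] at h4
      exact h4
    have h5 : Nontrivial W := ⟨⟨⟨1, h3⟩, 0, fun h => one_ne_zero (congrArg Subtype.val h)⟩⟩
    exact Module.finrank_pos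
  -- the maps
  set g : S → (Fin m → Fin t) → Ω := fun a κ =>
    if ∑ l, (κ l : ℕ) < t then jc Ω (fun l => (κ l : ℕ)) (L a.1) * y 0 (L a.1) else 0 with hg
  set J : (S → K) →ₗ[K] ((Fin m → Fin t) → Ω) := Fintype.linearCombination K g with hJ
  set E : ℕ → (S → K) →ₗ[K] Ω := fun c => Fintype.linearCombination K fun a : S => y c (L a.1)
    with hE
  set e : S → (S → K) := fun a => Pi.single a 1 with he
  have hJe : ∀ a, J (e a) = g a := fun a => by
    rw [hJ, he, Fintype.linearCombination_apply_single, one_smul]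
  have hEe : ∀ c a, E c (e a) = y c (L a.1) := fun c a => by
    rw [hE, he]
    simp only [Fintype.linearCombination_apply_single, one_smul]
  -- vectors from polynomials
  have hvec : ∀ (k : (Fin m' → ℤ) →₀ K), Spt NL ρ k → ∀ z : (Fin m' → ℤ) → Ω,
      ∑ a : S, k a.1 • z a.1 = ev K z k := by
    intro k hk z
    unfold ev
    rw [Finsupp.sum_of_support_subset k (s := hfin.toFinset)
      (fun a ha => hfin.mem_toFinset.mpr (hk a ha)) _ (by simp)]
    rw [Finset.sum_subtype hfin.toFinset (p := fun a => NL a ≤ ρ) (fun a => hfin.mem_toFinset)]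
    refine Finset.sum_congr rfl fun a _ => ?_
    rw [Algebra.smul_def]
  have hEk : ∀ (k : (Fin m' → ℤ) →₀ K), Spt NL ρ k → ∀ c,
      E c (fun a : S => k a.1) = ev K (fun a => y c (L a)) k := by
    intro k hk c
    rw [← hvec k hk (fun a => y c (L a)), hE]
    rfl
  have hJk : ∀ (k : (Fin m' → ℤ) →₀ K), Spt NL ρ k → (∀ κ : Fin m → ℕ, ∑ l, κ l < t →
      ev K (fun a => jc Ω κ (L a) * y 0 (L a)) k = 0) → J (fun a : S => k a.1) = 0 := by
    intro k hk h0
    funext κ
    rw [hJ, Fintype.linearCombination_apply, Finset.sum_apply]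
    simp only [Pi.smul_apply, hg, Pi.zero_apply]
    by_cases hκ : ∑ l, (κ l : ℕ) < t
    · simp only [if_pos hκ]
      rw [hvec k hk (fun a => jc Ω (fun l => (κ l : ℕ)) (L a) * y 0 (L a))]
      exact h0 _ hκ
    · simp only [if_neg hκ, smul_zero, sum_const_zero]
  -- filtration
  obtain ⟨R, j, hj, hR1, hR2, hR3⟩ := h2 K (S → K) ((Fin m → Fin t) → Ω) Ω S J E s r0 e
    (by
      rw [he]
      exact (Pi.basisFun K S).span_eq ▸ by
        congr 1
        ext v
        simp [Pi.basisFun_apply])
    (by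
      intro c hc hcs
      have hs0 : (0 : ℝ) < t + s := by
        have : (1 : ℝ) ≤ t := by exact_mod_cast ht
        positivity
      set ρ₂ : ℝ := ρ / (2 * (t + s)) with hρ₂
      have hρ₂0 : 0 ≤ ρ₂ := by positivity
      choose! f hf1 hf2 hf3 using fun c' (h : c' < c) => hsep c' c h hcs
      set C : Ω := (ev K (fun a => y c (L a)) (f 0)) ^ t *
        ∏ c' ∈ range (c - 1), ev K (fun a => y c (L a)) (f (c' + 1)) with hC
      have hC0 : C ≠ 0 := by
        refine mul_ne_zero (pow_ne_zero _ (hf3 0 (by omega))) (prod_ne_zero_iff.mpr ?_)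
        intro c' hc'
        rw [mem_range] at hc'
        exact hf3 _ (by omega)
      set Y : Submodule K (S → K) := LinearMap.ker J ⊓
        ⨅ c' ∈ Finset.Ico 1 c, LinearMap.ker (E c') with hY
      refine ⟨Y, inf_le_left, ?_, ?_⟩
      · intro c' h1c h2c
        refine inf_le_right.trans ?_
        exact iInf₂_le c' (Finset.mem_Ico.mpr ⟨h1c, h2c⟩)
      · have hinc : (WW K (fun a => y c (L a)) NL (ρ / 2)).map (LinearMap.mulLeft K C) ≤
            Y.map (E c) := by
          unfold WW
          rw [Submodule.map_span, Submodule.span_le]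
          rintro _ ⟨_, ⟨a, ha, rfl⟩, rfl⟩
          obtain ⟨k, hk1, hk2⟩ := mul_many h1 K Ω m' m L NL hNLn (fun a => y 0 (L a))
            (pt_comp L (hy 0)) f ρ₂ (ρ / 2) (c - 1) (fun c' h1c h2c => hf1 c' (by omega))
            (Finsupp.single a 1) (single_spt NL _ a ha)
          obtain ⟨k', hk'1, hk'2, hk'3⟩ := h1 K Ω m' m L NL hNLn (fun a => y 0 (L a))
            (pt_comp L (hy 0)) t (f 0) k ρ₂ _ (hf1 0 (by omega)) hk1
          have hspt : Spt NL ρ k' := by
            intro b hb
            refine (hk'1 b hb).trans ?_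
            have h6 : ((c - 1 : ℕ) : ℝ) ≤ s := by
              exact_mod_cast (by omega : c - 1 ≤ s)
            have h7 : (t : ℝ) * ρ₂ + ((c - 1 : ℕ) : ℝ) * ρ₂ ≤ (t + s) * ρ₂ := by
              rw [← add_mul]
              exact mul_le_mul_of_nonneg_right (by linarith) hρ₂0
            have h8 : ((t : ℝ) + s) * ρ₂ = ρ / 2 := by
              rw [hρ₂]
              field_simp
            linarith
          refine ⟨fun b : S => k' b.1, ?_, ?_⟩
          · refine ⟨?_, ?_⟩
            · exact hJk k' hspt (hk'3 (hf2 0 (by omega)))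
            · simp only [Submodule.coe_iInf, Set.mem_iInter, SetLike.mem_coe, LinearMap.mem_ker,
                Finset.mem_Ico]
              intro c' hc'
              rw [hEk k' hspt, hk'2 _ (pt_comp L (hy c')), hk2 _ (pt_comp L (hy c'))]
              have h9 : ∏ c'' ∈ range (c - 1), ev K (fun a => y c' (L a)) (f (c'' + 1)) = 0 := by
                refine prod_eq_zero (mem_range.mpr (by omega : c' - 1 < c - 1)) ?_
                have h10 : c' - 1 + 1 = c' := by omega
                rw [h10]
                exact hf2 c' (by omega)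
              rw [h9, zero_mul, mul_zero]
          · rw [hEk k' hspt, hk'2 _ (pt_comp L (hy c)), hk2 _ (pt_comp L (hy c)), ev_single]
            change _ = C * y c (L a)
            rw [hC]
            ring
        have hinj : Function.Injective (LinearMap.mulLeft K C) := by
          intro u v huv
          exact mul_left_cancel₀ hC0 huv
        have h11 := (Submodule.equivMapOfInjective (LinearMap.mulLeft K C) hinj
          (WW K (fun a => y c (L a)) NL (ρ / 2))).finrank_eq
        refine (hrk c hc hcs).trans ?_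
        rw [h11]
        exact Submodule.finrank_mono hinc)
  have hJsum : ∀ x : Fin R → K, J (∑ i, x i • e (j i)) = ∑ i, x i • g (j i) := by
    intro x
    rw [map_sum]
    refine Finset.sum_congr rfl fun i _ => ?_
    rw [map_smul, hJe]
  have hEsum : ∀ (x : Fin R → K) c, E c (∑ i, x i • e (j i)) =
      ∑ i, algebraMap K Ω (x i) * y c (L (j i).1) := by
    intro x c
    rw [map_sum]
    refine Finset.sum_congr rfl fun i _ => ?_
    rw [map_smul, hEe, Algebra.smul_def]
  have hJK : ∀ x : Fin R → K, x ∈ JK K t (y 0) (fun i => L (j i).1) ↔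
      J (∑ i, x i • e (j i)) = 0 := by
    intro x
    rw [hJsum]
    constructor
    · intro hx
      funext κ
      rw [Finset.sum_apply]
      simp only [Pi.smul_apply, hg, Pi.zero_apply]
      by_cases hκ : ∑ l, (κ l : ℕ) < t
      · simp only [if_pos hκ, Algebra.smul_def]
        exact hx (fun l => (κ l : ℕ)) hκ
      · simp only [if_neg hκ, smul_zero, sum_const_zero]
    · intro hx κ hκ
      have hlt : ∀ l, κ l < t := fun l =>
        lt_of_le_of_lt (Finset.single_le_sum (f := κ) (fun i _ => Nat.zero_le _)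
          (Finset.mem_univ l)) hκ
      have h12 := congrFun hx (fun l => (⟨κ l, hlt l⟩ : Fin t))
      rw [Finset.sum_apply] at h12
      simp only [Pi.smul_apply, hg, Pi.zero_apply, if_pos hκ, Algebra.smul_def] at h12
      exact h12
  have hdim : Module.finrank K (LinearMap.range J) ≤ t ^ m * r0 := by
    have h13 : LinearMap.range J ≤ LinearMap.range ((W.subtype).compLeft (Fin m → Fin t)) := by
      rw [hJ, Fintype.range_linearCombination, Submodule.span_le]
      rintro _ ⟨a, rfl⟩
      refine ⟨fun κ => ⟨g a κ, ?_⟩, rfl⟩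
      simp only [hg]
      split_ifs
      · exact jc_mem K _ _ W _ (hyW a)
      · exact W.zero_mem
    refine (Submodule.finrank_mono h13).trans ((LinearMap.finrank_range_le _).trans ?_)
    rw [Module.finrank_pi_fintype, sum_const, Finset.card_univ, Fintype.card_fun, Fintype.card_fin,
      Fintype.card_fin, smul_eq_mul]
  refine ⟨R, Module.finrank K (LinearMap.range J), r0, fun i => L (j i).1, ?_, fun i => (j i).2,
    hr01, hdim, hR1, ?_, ?_⟩
  · exact hL.comp (Subtype.val_injective.comp hj)
  · intro x hx hx2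
    refine hR2 x ((hJK x).mp hx) fun c hc hcs => ?_
    rw [hEsum]
    exact hx2 c hc hcs
  · refine hR3.trans (le_of_eq ?_)
    congr 1
    have h14 : JK K t (y 0) (fun i => L (j i).1) =
        LinearMap.ker (J ∘ₗ Fintype.linearCombination K fun i => e (j i)) := by
      ext x
      rw [hJK, LinearMap.mem_ker, LinearMap.comp_apply]
      rfl
    rw [h14]

end Pool.Agent.H69.SX
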