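import Pool.Agent.H69.SX.FRA
import Pool.Agent.H29.SX.Targets
import Pool.Agent.H11.RDD.RS

/-! Row FRF of board shx_modules. -/

set_option autoImplicit false

namespace Pool.Agent.H69.SX

open NumberField Height Finset Polynomial Pool.Agent.H24.RD Pool.Agent.H23.RDD Pool.Agent.H29.RQ
  Pool.Agent.H29.SX
open Pool.Agent.H77.RD (Good good_of_finitePlace step4)

section GStep

variable {K M : Type} [Field K] [NumberField K] [Field M] [NumberField M] [Algebra K M]
  {w : AbsoluteValue M ℝ} {ℓ : ℕ}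

/-- Step 3: `f (z ^ q)` is close to `f (z) ^ q`. -/
theorem gstep3 (h : Good M w ℓ) (hℓ : ℓ.Prime) (n : ℕ) (c : ℝ) (hcl : w (ℓ : M) ≤ c)
    (H2 : ∀ a : 𝓞 K, w (algebraMap K M ((a : K) ^ (ℓ ^ n) - (a : K))) ≤ c) (z : 𝓞 M) (f : (𝓞 K)[X]) :
    IsIntegral ℤ (aeval (z : M) f) ∧
    w (aeval ((z : M) ^ (ℓ ^ n)) f -
      (aeval (z : M) f) ^ (ℓ ^ n)) ≤
      c := by
  induction f using Polynomial.induction_on' with
  | add f g hf hg =>
    refine ⟨?_, ?_⟩
    · rw [map_add]; exact hf.1.add hg.1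
    · obtain ⟨F, hF⟩ : ∃ F : 𝓞 M, (F : M) = aeval (z : M) f := ⟨⟨_, hf.1⟩, rfl⟩
      obtain ⟨G, hG⟩ : ∃ G : 𝓞 M, (G : M) = aeval (z : M) g := ⟨⟨_, hg.1⟩, rfl⟩
      obtain ⟨r, hr⟩ := exists_add_pow_prime_pow_eq hℓ F G n
      have h1 := congrArg (fun x : 𝓞 M => (x : M)) hr
      simp only [map_add, map_mul, map_pow, map_natCast] at h1
      rw [map_add, map_add, ← hF, ← hG, h1]
      rw [← hF] at hf
      rw [← hG] at hg
      have e : ∀ A B C D E : M, A + B - (C + D + E) = (A - C) + (B - D) - E := by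
        intro A B C D E; ring
      rw [e]
      refine (h.sub_le _ _).trans (max_le ((h.na _ _).trans (max_le hf.2 hg.2)) ?_)
      refine le_trans ?_ hcl
      have hint : IsIntegral ℤ ((F : M) * (G : M) * (r : M)) := (F.2.mul G.2).mul r.2
      have e2 : (ℓ : M) * (F : M) * (G : M) * (r : M) = (ℓ : M) * ((F : M) * (G : M) * (r : M)) := by
        ring
      rw [e2, map_mul]
      exact mul_le_of_le_one_right (apply_nonneg _ _) (h.int _ hint)
  | monomial nn a =>
    refine ⟨?_, ?_⟩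
    · rw [aeval_monomial]
      exact (a.2.algebraMap (A := K) (B := M)).mul ((z.2).pow nn)
    · set q := ℓ ^ n with hq
      rw [aeval_monomial, aeval_monomial, mul_pow]
      have e : algebraMap (𝓞 K) M a * ((z : M) ^ q) ^ nn - (algebraMap (𝓞 K) M a) ^ q * ((z : M) ^ nn) ^ q =
          -(algebraMap K M ((a : K) ^ q - (a : K)) * ((z : M) ^ nn) ^ q) := by
        have e1 : algebraMap (𝓞 K) M a = algebraMap K M (a : K) := rfl
        rw [e1, map_sub, map_pow, ← pow_mul, ← pow_mul, mul_comm nn q]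
        ring
      rw [e, w.map_neg, map_mul]
      refine le_trans (mul_le_of_le_one_right (apply_nonneg _ _) (h.int _ ((z.2.pow nn).pow q))) ?_
      exact H2 a


/-- Step 1: the Frobenius substitution on `ζ`. -/
theorem gstep1 (h : Good M w ℓ) (hℓ : ℓ.Prime) (n : ℕ) (c : ℝ) (hcl : w (ℓ : M) ≤ c) (hc1 : c < 1)
    (H2 : ∀ a : 𝓞 K, w (algebraMap K M ((a : K) ^ (ℓ ^ n) - (a : K))) ≤ c) {N' : ℕ} (hN : ¬ ℓ ∣ N') {ζ : M}
    (hζ : IsPrimitiveRoot ζ N') [Normal K M] :
    ∃ σ : M ≃ₐ[K] M, σ ζ = ζ ^ (ℓ ^ n) := by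
  set q := ℓ ^ n with hq
  have hN0 : N' ≠ 0 := fun h0 => hN (h0 ▸ dvd_zero ℓ)
  have hint : IsIntegral ℤ ζ := hζ.isIntegral (Nat.pos_of_ne_zero hN0)
  have hintO : IsIntegral (𝓞 K) ζ := hint.tower_top
  have hintK : IsIntegral K ζ := hint.tower_top
  have hmin : minpoly K ζ = (minpoly (𝓞 K) ζ).map (algebraMap (𝓞 K) K) :=
    minpoly.isIntegrallyClosed_eq_field_fractions' K hintO
  obtain ⟨z, hz⟩ : ∃ z : 𝓞 M, (z : M) = ζ := ⟨⟨ζ, hint⟩, rfl⟩
  have h3 := (gstep3 h hℓ n c hcl H2 z (minpoly (𝓞 K) ζ)).2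
  have hq0 : q ≠ 0 := pow_ne_zero _ hℓ.ne_zero
  rw [hz, minpoly.aeval, zero_pow hq0, sub_zero] at h3
  have h4 : aeval (ζ ^ q) (minpoly (𝓞 K) ζ) = aeval (ζ ^ q) (minpoly K ζ) := by
    rw [hmin, aeval_map_algebraMap]
  have hspl : ((minpoly K ζ).map (algebraMap K M)).Splits := Normal.splits inferInstance ζ
  have hmon : ((minpoly K ζ).map (algebraMap K M)).Monic := (minpoly.monic hintK).map _
  have h5 : aeval (ζ ^ q) (minpoly K ζ) =
      (((minpoly K ζ).map (algebraMap K M)).roots.map (fun a => ζ ^ q - a)).prod := by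
    rw [← eval_map_algebraMap]
    conv_lhs => rw [hspl.eq_prod_roots_of_monic hmon]
    rw [eval_multiset_prod, Multiset.map_map]
    simp
  rw [h4, h5] at h3
  have h6 : ∃ ρ ∈ ((minpoly K ζ).map (algebraMap K M)).roots, w (ζ ^ q - ρ) < 1 := by
    by_contra hcon
    push Not at hcon
    have h7 : ∀ s : Multiset M, (∀ ρ ∈ s, 1 ≤ w (ζ ^ q - ρ)) →
        1 ≤ w ((s.map (fun a => ζ ^ q - a)).prod) := by
      intro s
      induction s using Multiset.induction_on with
      | empty => intro _; simp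
      | cons a s ih =>
        intro hs
        rw [Multiset.map_cons, Multiset.prod_cons, map_mul]
        exact one_le_mul_of_one_le_of_one_le (hs a (Multiset.mem_cons_self a s))
          (ih fun ρ hρ => hs ρ (Multiset.mem_cons_of_mem hρ))
    exact absurd (h7 _ hcon) (not_le.2 (lt_of_le_of_lt h3 hc1))
  obtain ⟨ρ, hρ, hρ1⟩ := h6
  have hρ0 : aeval ρ (minpoly K ζ) = 0 := by
    have := (mem_roots hmon.ne_zero).1 hρ
    rwa [IsRoot.def, eval_map_algebraMap] at this
  have hρN : ρ ^ N' = 1 := by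
    have hd : minpoly K ζ ∣ X ^ N' - 1 := minpoly.dvd _ _ (by simp [hζ.pow_eq_one])
    obtain ⟨g, hg⟩ := hd
    have := congrArg (aeval ρ) hg
    rw [map_mul, hρ0, zero_mul] at this
    simpa [sub_eq_zero] using this
  have heq : ζ ^ q = ρ := h.root_eq hℓ hN (by rw [← pow_mul, mul_comm, pow_mul, hζ.pow_eq_one, one_pow])
    hρN hρ1
  have hmin2 : minpoly K (ζ ^ q) = minpoly K ζ := by
    rw [heq]
    exact (minpoly.eq_of_irreducible_of_monic (minpoly.irreducible hintK) hρ0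
      (minpoly.monic hintK)).symm
  rw [Normal.minpoly_eq_iff_mem_orbit] at hmin2
  obtain ⟨σ, hσ⟩ := hmin2
  exact ⟨σ, hσ⟩

/-- Step 5: integral elements. -/
theorem gstep5 (h : Good M w ℓ) (hℓ : ℓ.Prime) (n : ℕ) (c : ℝ) (hcl : w (ℓ : M) ≤ c)
    (H2 : ∀ a : 𝓞 K, w (algebraMap K M ((a : K) ^ (ℓ ^ n) - (a : K))) ≤ c) {N' : ℕ} (hN : ¬ ℓ ∣ N') {ζ : M}
    (hζ : IsPrimitiveRoot ζ N') [IsGalois K M] (htop : IntermediateField.adjoin K {ζ} = ⊤)
    (σ : M ≃ₐ[K] M) (hσ : σ ζ = ζ ^ (ℓ ^ n))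
    (x : M) (hx : IsIntegral ℤ x) :
    w (σ x - x ^ (ℓ ^ n)) ≤
      c := by
  set q := ℓ ^ n with hq
  have hN0 : N' ≠ 0 := fun h0 => hN (h0 ▸ dvd_zero ℓ)
  have hint : IsIntegral ℤ ζ := hζ.isIntegral (Nat.pos_of_ne_zero hN0)
  obtain ⟨z, hz⟩ : ∃ z : 𝓞 M, (z : M) = ζ := ⟨⟨ζ, hint⟩, rfl⟩
  obtain ⟨f, hf⟩ := step4 (K := K) hN0 hζ htop x hx
  have h3 := (gstep3 h hℓ n c hcl H2 z f).2
  rw [hz, hf, ← hq] at h3
  have h4 : aeval (ζ ^ q) f = (N' : M) * σ x := by
    have e1 : σ (aeval ζ f) = aeval (σ ζ) f := by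
      have := aeval_algHom_apply ((σ : M →ₐ[K] M).restrictScalars (𝓞 K)) ζ f
      exact this.symm
    rw [← hσ, ← e1, hf, map_mul, map_natCast]
  rw [h4] at h3
  have hN1 : w (N' : M) = 1 := h.natCast_eq_one hℓ hN
  -- Fermat
  have hfer : w ((N' : M) - (N' : M) ^ q) ≤ w (ℓ : M) := by
    have : Fact ℓ.Prime := ⟨hℓ⟩
    have h5 : (ℓ : ℤ) ∣ (N' : ℤ) - (N' : ℤ) ^ q := by
      rw [← ZMod.intCast_zmod_eq_zero_iff_dvd]
      push_cast
      rw [hq, ZMod.pow_card_pow, sub_self]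
    obtain ⟨c, hc⟩ := h5
    have h6 : (N' : M) - (N' : M) ^ q = (ℓ : M) * (c : M) := by
      exact_mod_cast congrArg (Int.cast : ℤ → M) hc
    rw [h6, map_mul]
    refine mul_le_of_le_one_right (apply_nonneg _ _) (h.int _ ?_)
    simpa using (isIntegral_algebraMap (R := ℤ) (A := M) (x := c))
  have e : (N' : M) * (σ x - x ^ q) =
      ((N' : M) * σ x - ((N' : M) * x) ^ q) - ((N' : M) - (N' : M) ^ q) * x ^ q := by
    rw [mul_pow]; ring
  have h7 : w (σ x - x ^ q) = w ((N' : M) * (σ x - x ^ q)) := by rw [map_mul, hN1, one_mul]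
  rw [h7, e]
  refine (h.sub_le _ _).trans (max_le h3 ?_)
  rw [map_mul]
  refine le_trans (mul_le_of_le_one_right (apply_nonneg _ _) (h.int _ (hx.pow q))) ?_
  exact hfer.trans hcl

/-- Step 6: quotients with a denominator which is a unit. -/
theorem gstep6 (h : Good M w ℓ) (hℓ : ℓ.Prime) (n : ℕ) (c : ℝ) (hcl : w (ℓ : M) ≤ c) (hc1 : c < 1)
    (H2 : ∀ a : 𝓞 K, w (algebraMap K M ((a : K) ^ (ℓ ^ n) - (a : K))) ≤ c) {N' : ℕ} (hN : ¬ ℓ ∣ N') {ζ : M}
    (hζ : IsPrimitiveRoot ζ N') [IsGalois K M] (htop : IntermediateField.adjoin K {ζ} = ⊤)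
    (σ : M ≃ₐ[K] M) (hσ : σ ζ = ζ ^ (ℓ ^ n))
    (x y d : M) (hn : IsIntegral ℤ y) (hd : IsIntegral ℤ d) (hd1 : w d = 1) (hx : x * d = y) :
    w (σ x - x ^ (ℓ ^ n)) ≤
      c := by
  have h5n := gstep5 h hℓ n c hcl H2 hN hζ htop σ hσ y hn
  have h5d := gstep5 h hℓ n c hcl H2 hN hζ htop σ hσ d hd
  set q := ℓ ^ n with hq
  have hd0 : d ≠ 0 := by
    rintro rfl
    rw [map_zero] at hd1
    exact zero_ne_one hd1
  have hdq : w (d ^ q) = 1 := by rw [map_pow, hd1, one_pow]
  have hσd : w (σ d) = 1 := h.eq_one_of_sub_lt hdq (lt_of_le_of_lt h5d hc1)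
  have hσd0 : σ d ≠ 0 := (map_ne_zero σ).2 hd0
  have e1 : σ x = σ y / σ d := by
    rw [eq_div_iff hσd0, ← map_mul, hx]
  have e2 : x ^ q = y ^ q / d ^ q := by
    rw [eq_div_iff (pow_ne_zero _ hd0), ← mul_pow, hx]
  have e3 : σ x - x ^ q = ((σ y - y ^ q) * d ^ q - y ^ q * (σ d - d ^ q)) / (σ d * d ^ q) := by
    rw [e1, e2]
    have := pow_ne_zero q hd0
    field_simp
    ring
  rw [e3, map_div₀, map_mul, hσd, hdq, mul_one, div_one]
  refine (h.sub_le _ _).trans (max_le ?_ ?_)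
  · rw [map_mul, hdq, mul_one]
    exact h5n
  · rw [map_mul]
    exact (mul_le_of_le_one_left (apply_nonneg _ _) (h.int _ (hn.pow q))).trans h5d


end GStep

/-- The place is preserved. -/
theorem place_preserved {E : Type} [Field E] [NumberField E] (φ : E →+* E) (p q : ℕ) (hp : p.Prime)
    (hq : q ≠ 0) (w : FinitePlace E) (hw : w.1 (p : E) < 1)
    (hA : ∀ x : E, IsIntegral ℤ x → w.1 (φ x - x ^ q) < 1) (x : E) : w.1 (φ x) = w.1 x := by
  have h : Good E w.1 p := good_of_finitePlace w hw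
  have hp0 : (p : E) ≠ 0 := by exact_mod_cast hp.ne_zero
  have hwp : 0 < w.1 (p : E) := w.1.pos hp0
  obtain ⟨u', k, hk, hu'⟩ := @Pool.Agent.H11.RDD.pf_RS E E _ _ _ _ (φ.toAlgebra) w
  have hu2' : ∀ x : E, w.1 (φ x) = (u'.1 x) ^ k := hu'
  have hle : w.maximalIdeal.asIdeal ≤ u'.maximalIdeal.asIdeal := by
    intro x hx
    have h1 := (FinitePlace.norm_lt_one_iff_mem (K := E) w.maximalIdeal x).2 hx
    rw [FinitePlace.norm_embedding_eq] at h1
    have h1' : w.1 (x : E) < 1 := h1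
    have h2 : w.1 (φ (x : E)) < 1 := by
      have h3 : φ (x : E) = (φ (x : E) - (x : E) ^ q) + (x : E) ^ q := by ring
      rw [h3]
      refine lt_of_le_of_lt (h.na _ _) (max_lt (hA _ x.2) ?_)
      rw [map_pow]
      exact pow_lt_one₀ (apply_nonneg _ _) h1' hq
    rw [hu2'] at h2
    have h3 : u'.1 (x : E) < 1 := by
      by_contra hcon
      have h4 := Real.one_le_rpow (not_lt.1 hcon) hk.le
      linarith
    refine (FinitePlace.norm_lt_one_iff_mem (K := E) u'.maximalIdeal x).1 ?_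
    rw [FinitePlace.norm_embedding_eq]
    exact h3
  have hmax : w.maximalIdeal.asIdeal = u'.maximalIdeal.asIdeal :=
    (w.maximalIdeal.isMaximal).eq_of_le (u'.maximalIdeal.isPrime.ne_top) hle
  have huw : u' = w := by
    rw [← FinitePlace.maximalIdeal_inj]
    exact IsDedekindDomain.HeightOneSpectrum.ext hmax.symm
  rw [huw] at hu2'
  have hk1 : k = 1 := by
    have h1 := hu2' (p : E)
    rw [map_natCast] at h1
    have h2 : w.1 (p : E) ^ (1 : ℝ) = w.1 (p : E) ^ k := by rw [Real.rpow_one]; exact h1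
    exact ((Real.rpow_right_inj hwp hw.ne).1 h2).symm
  rw [hu2', hk1, Real.rpow_one]

theorem pf_FRF (hVB : T_VB) : T_FRF := by
  intro F E _ _ _ _ _ p v N' hp hN ζ hζ htop
  by_cases hex : ∃ w : FinitePlace E, w.1 (p : E) < 1
  swap
  · exact ⟨AlgEquiv.refl, fun w hw => absurd ⟨w, hw⟩ hex⟩
  obtain ⟨w₀, hw₀⟩ := hex
  have hN0 : N' ≠ 0 := fun h0 => hN (h0 ▸ dvd_zero p)
  have hM0 : p ^ v * N' ≠ 0 := mul_ne_zero (pow_ne_zero _ hp.ne_zero) hN0
  have hMpos : 0 < p ^ v * N' := Nat.pos_of_ne_zero hM0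
  have hζ0 : ζ ≠ 0 := hζ.ne_zero hM0
  set ξ : E := ζ ^ N' with hξ
  have hξp : IsPrimitiveRoot ξ (p ^ v) := hζ.pow hMpos (mul_comm _ _)
  set η : E := ζ ^ (p ^ v) with hη
  have hηp : IsPrimitiveRoot η N' := hζ.pow hMpos rfl
  have hpvpos : 0 < p ^ v := pow_pos hp.pos v
  have hξint : IsIntegral ℤ ξ := hξp.isIntegral hpvpos
  have hηint : IsIntegral ℤ η := hηp.isIntegral (Nat.pos_of_ne_zero hN0)
  have hξF : IsIntegral F ξ := hξint.tower_top
  set K' : IntermediateField F E := IntermediateField.adjoin F {ξ} with hK'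
  haveI hfin : Module.Finite F K' := IntermediateField.adjoin.finiteDimensional hξF
  haveI : NumberField K' := NumberField.of_module_finite F K'
  have hξK : ξ ∈ K' := IntermediateField.mem_adjoin_simple_self F ξ
  -- the field is generated by `η`
  have htop' : IntermediateField.adjoin K' {η} = ⊤ := by
    rw [eq_top_iff]
    intro x _
    have hζL : ζ ∈ IntermediateField.adjoin K' {η} := by
      have hc : IsCoprime (N' : ℤ) ((p ^ v : ℕ) : ℤ) :=
        Nat.isCoprime_iff_coprime.2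
          (Nat.Coprime.symm (Nat.Coprime.pow_left v ((hp.coprime_iff_not_dvd).2 hN)))
      obtain ⟨a, b, hab⟩ := hc
      have h1 : ζ = ξ ^ a * η ^ b := by
        rw [hξ, hη, ← zpow_natCast ζ N', ← zpow_natCast ζ (p ^ v), ← zpow_mul, ← zpow_mul,
          ← zpow_add₀ hζ0]
        have h2 : (N' : ℤ) * a + ((p ^ v : ℕ) : ℤ) * b = 1 := by linarith
        rw [h2, zpow_one]
      rw [h1]
      refine mul_mem (zpow_mem ?_ a) (zpow_mem (IntermediateField.mem_adjoin_simple_self K' η) b)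
      exact (IntermediateField.adjoin K' {η}).algebraMap_mem (⟨ξ, hξK⟩ : K')
    have h3 : IntermediateField.adjoin F {ζ} ≤
        (IntermediateField.adjoin K' {η}).restrictScalars F := by
      rw [IntermediateField.adjoin_simple_le_iff]
      exact hζL
    rw [htop] at h3
    exact h3 (IntermediateField.mem_top (x := x))
  have hgal : IsGalois K' E := by
    haveI : NeZero N' := ⟨hN0⟩
    have hcyc : IsCyclotomicExtension {N'} K' E := by
      rw [IsCyclotomicExtension.iff_singleton]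
      refine ⟨⟨η, hηp⟩, fun x => ?_⟩
      have h1 : x ∈ IntermediateField.adjoin K' {η} := by
        rw [htop']
        exact IntermediateField.mem_top
      have h2 : IsIntegral K' η := hηint.tower_top
      rw [← IntermediateField.mem_toSubalgebra,
        IntermediateField.adjoin_simple_toSubalgebra_of_isAlgebraic h2.isAlgebraic] at h1
      have hsub : ({η} : Set E) ⊆ {b : E | b ^ N' = 1} := by
        intro b hb
        rw [Set.mem_singleton_iff] at hb
        rw [Set.mem_ofPred_eq, hb]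
        exact hηp.pow_eq_one
      exact (Algebra.adjoin_mono hsub : Algebra.adjoin K' {η} ≤ _) h1
    exact IsCyclotomicExtension.isGalois {N'} K' E
  -- degrees
  set d : ℕ := Module.finrank ℚ F with hd
  have hd0 : d ≠ 0 := Module.finrank_pos.ne'
  set e : ℕ := Nat.totient (p ^ v) with he
  have he0 : 0 < e := Nat.totient_pos.2 hpvpos
  have hep : e ≤ p ^ v := Nat.totient_le _
  have hdeg : Module.finrank ℚ K' ≤ d * e := by
    rw [← Module.finrank_mul_finrank ℚ F K']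
    refine Nat.mul_le_mul_left _ ?_
    rw [hK', IntermediateField.adjoin.finrank hξF]
    have h1 : minpoly F ξ ∣ cyclotomic (p ^ v) F := by
      refine minpoly.dvd _ _ ?_
      rw [aeval_def, eval₂_eq_eval_map, map_cyclotomic]
      exact hξp.isRoot_cyclotomic hpvpos
    refine (natDegree_le_of_dvd h1 (cyclotomic_ne_zero _ _)).trans ?_
    rw [natDegree_cyclotomic]
  -- the constant and the congruence of the level field
  have key : ∀ w : FinitePlace E, w.1 (p : E) < 1 →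
      w.1 (p : E) ≤ w.1 (p : E) ^ (1 / ((d * p ^ v : ℕ) : ℝ)) ∧
      w.1 (p : E) ^ (1 / ((d * p ^ v : ℕ) : ℝ)) < 1 ∧
      ∀ a : 𝓞 K', w.1 (algebraMap K' E ((a : K') ^ (p ^ d.factorial) - (a : K'))) ≤
        w.1 (p : E) ^ (1 / ((d * p ^ v : ℕ) : ℝ)) := by
    intro w hw
    have h : Good E w.1 p := good_of_finitePlace w hw
    have hp0 : (p : E) ≠ 0 := by exact_mod_cast hp.ne_zero
    have hwp : 0 < w.1 (p : E) := w.1.pos hp0
    have hdp : 0 < d * p ^ v := Nat.mul_pos (Nat.pos_of_ne_zero hd0) hpvpos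
    have hdp1 : (1 : ℝ) ≤ ((d * p ^ v : ℕ) : ℝ) := by exact_mod_cast hdp
    refine ⟨?_, Real.rpow_lt_one hwp.le hw (by positivity), ?_⟩
    · calc w.1 (p : E) = w.1 (p : E) ^ (1 : ℝ) := (Real.rpow_one _).symm
        _ ≤ _ := Real.rpow_le_rpow_of_exponent_ge hwp hw.le (by
          rw [div_le_one (by positivity)]
          exact hdp1)
    · obtain ⟨π, hπ0, hπ1, hπ⟩ : ∃ π : 𝓞 K', 0 < w.1 (algebraMap K' E π) ∧
          w.1 (algebraMap K' E π) < 1 ∧ w.1 (p : E) ≤ w.1 (algebraMap K' E π) ^ e := by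
        rcases Nat.eq_zero_or_pos v with hv | hv
        · have hval : algebraMap K' E ((p : 𝓞 K') : K') = (p : E) := by
            have h1 : ((p : 𝓞 K') : K') = (p : K') := by push_cast; rfl
            rw [h1, map_natCast]
          refine ⟨(p : 𝓞 K'), ?_, ?_, ?_⟩
          · rw [hval]
            exact hwp
          · rw [hval]
            exact hw
          · rw [hval, he, hv, pow_zero, Nat.totient_one, pow_one]
        · have hi : IsIntegral ℤ (1 - (⟨ξ, hξK⟩ : K')) := by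
            refine isIntegral_one.sub ?_
            refine ⟨X ^ (p ^ v) - 1, monic_X_pow_sub_C 1 hpvpos.ne', ?_⟩
            have h1 : (⟨ξ, hξK⟩ : K') ^ (p ^ v) = 1 := by
              apply Subtype.ext
              exact hξp.pow_eq_one
            simp [h1]
          have hval : algebraMap K' E ((⟨1 - (⟨ξ, hξK⟩ : K'), hi⟩ : 𝓞 K') : K') = 1 - ξ := by
            change algebraMap K' E (1 - (⟨ξ, hξK⟩ : K')) = 1 - ξ
            rw [map_sub, map_one]
            rfl
          have hVBw := (hVB E p hp w hw).2.2.2.2.2.1 v ξ hv hξp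
          have hee : ((p : ℝ) ^ (v - 1) * (p - 1)) = (e : ℝ) := by
            rw [he, Nat.totient_prime_pow hp hv]
            push_cast [Nat.cast_sub hp.one_le]
            ring
          rw [hee] at hVBw
          have hne : (1 : E) - ξ ≠ 0 := by
            intro h1
            have h2 : ξ = 1 := (sub_eq_zero.1 h1).symm
            have h3 := hξp.unique (h2 ▸ IsPrimitiveRoot.one)
            have h4 : 1 < p ^ v := Nat.one_lt_pow hv.ne' hp.one_lt
            omega
          have hpos : 0 < w.1 (1 - ξ) := w.1.pos hne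
          have hlog : Real.log (w.1 (1 - ξ)) = Real.log (w.1 (p : E)) / e := by
            unfold wv at hVBw
            have h5 : Real.log (w.1 (p : E)) ≠ 0 := (Real.log_neg hwp hw).ne
            rw [div_eq_iff h5] at hVBw
            rw [hVBw]
            ring
          have heR : (0 : ℝ) < e := by exact_mod_cast he0
          obtain ⟨π, hπ⟩ : ∃ π : 𝓞 K', algebraMap K' E π = 1 - ξ := ⟨⟨_, hi⟩, hval⟩
          refine ⟨π, ?_, ?_, ?_⟩
          · rw [hπ]
            exact hpos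
          · rw [hπ, ← Real.log_neg_iff hpos, hlog]
            exact div_neg_of_neg_of_pos (Real.log_neg hwp hw) heR
          · rw [hπ]
            have h6 : Real.log (w.1 (1 - ξ) ^ e) = Real.log (w.1 (p : E)) := by
              rw [Real.log_pow, hlog]
              field_simp
            exact (Real.log_injOn_pos (Set.mem_Ioi.2 (pow_pos hpos e)) (Set.mem_Ioi.2 hwp) h6).ge
      intro a
      refine (gstep2 h hp d e hd0 hdeg π hπ0 hπ1 hπ a).trans ?_
      refine Real.rpow_le_rpow_of_exponent_ge hwp hw.le ?_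
      have h7 : (0 : ℝ) < Module.finrank ℚ K' := by exact_mod_cast Module.finrank_pos
      refine one_div_le_one_div_of_le h7 ?_
      exact_mod_cast hdeg.trans (Nat.mul_le_mul_left _ hep)
  obtain ⟨hcl₀, hc1₀, H2₀⟩ := key w₀ hw₀
  obtain ⟨σ, hσ⟩ := gstep1 (K := K') (good_of_finitePlace w₀ hw₀) hp d.factorial _ hcl₀ hc1₀ H2₀ hN hηp
  refine ⟨σ.restrictScalars F, fun w hw => ?_⟩
  obtain ⟨hcl, hc1, H2⟩ := key w hw
  have h : Good E w.1 p := good_of_finitePlace w hw
  have hq0 : p ^ d.factorial ≠ 0 := pow_ne_zero _ hp.ne_zero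
  have hB := place_preserved (σ : E →+* E) p (p ^ d.factorial) hp hq0 w hw (fun x hx =>
    lt_of_le_of_lt (gstep5 h hp d.factorial _ hcl H2 hN hηp htop' σ hσ x hx) hc1)
  refine ⟨fun x => hB x, fun x hx => ?_⟩
  obtain ⟨n, m, hnm⟩ := IsDedekindDomain.HeightOneSpectrum.exists_primeCompl_mul_eq_or_mul_eq
    (K := E) w.maximalIdeal x
  have hm1 : w.1 (algebraMap (𝓞 E) E m) = 1 := by
    have h1 := (FinitePlace.norm_eq_one_iff_notMem (K := E) w.maximalIdeal (m : 𝓞 E)).2 m.2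
    rw [FinitePlace.norm_embedding_eq] at h1
    exact h1
  rcases hnm with hnm | hnm
  · exact gstep6 h hp d.factorial _ hcl hc1 H2 hN hηp htop' σ hσ x _ _ n.2 (m : 𝓞 E).2 hm1 hnm
  · refine gstep6 h hp d.factorial _ hcl hc1 H2 hN hηp htop' σ hσ x _ _ (m : 𝓞 E).2 n.2 ?_ hnm
    have h1 : w.1 x * w.1 (algebraMap (𝓞 E) E n) = 1 := by
      rw [← map_mul, hnm, hm1]
    have h2 : w.1 (algebraMap (𝓞 E) E n) ≤ 1 := h.int _ n.2
    have h3 : 0 ≤ w.1 (algebraMap (𝓞 E) E n) := apply_nonneg _ _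
    have h4 : 0 ≤ w.1 x := apply_nonneg _ _
    show w.1 (algebraMap (𝓞 E) E n) = 1
    nlinarith

end Pool.Agent.H69.SX
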