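import Pool.Agent.H77.RD.FR1

/-! Row FRF of board shx_modules, part 1: residue degrees in the presence of ramification. -/

set_option autoImplicit false

namespace Pool.Agent.H69.SX

open NumberField Height Finset Polynomial Pool.Agent.H24.RD
open Pool.Agent.H77.RD (Good good_of_finitePlace dvd_pow_aux step2)

/-- Over `ZMod ℓ`, a nonzero polynomial of degree at most `d` divides `(X ^ (ℓ ^ d!) - X) ^ d`. -/
theorem dvd_pow_aux' (ℓ d : ℕ) [Fact ℓ.Prime] (f : (ZMod ℓ)[X]) (hf : f ≠ 0)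
    (hd : f.natDegree ≤ d) : f ∣ (X ^ (ℓ ^ d.factorial) - X : (ZMod ℓ)[X]) ^ d := by
  have hm : (f * C f.leadingCoeff⁻¹).Monic := monic_mul_leadingCoeff_inv hf
  have h1 := dvd_pow_aux ℓ d (f * C f.leadingCoeff⁻¹) hm (by
    refine (natDegree_mul_C_le _ _).trans hd)
  exact (dvd_mul_right f _).trans h1

/-- An integral polynomial of degree at most `d` which is not zero modulo `ℓ` and small at `a`
gives `a ^ (ℓ ^ d!) - a` small. -/
theorem small_of_poly {R M : Type} [CommRing R] [Field M] [Algebra R M] {w : AbsoluteValue M ℝ}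
    {ℓ : ℕ} (h : Good M w ℓ) (hℓ : ℓ.Prime) (hR : ∀ r : R, w (algebraMap R M r) ≤ 1) (d : ℕ)
    (hd0 : d ≠ 0) (a : R) (G : ℤ[X]) (hG : G.map (Int.castRingHom (ZMod ℓ)) ≠ 0)
    (hGd : G.natDegree ≤ d) (hGa : w (algebraMap R M (aeval a G)) < 1) :
    w (algebraMap R M (a ^ (ℓ ^ d.factorial) - a)) < 1 := by
  have : Fact ℓ.Prime := ⟨hℓ⟩
  obtain ⟨g, hg⟩ := dvd_pow_aux' ℓ d (G.map (Int.castRingHom (ZMod ℓ))) hG
    ((natDegree_map_le).trans hGd)
  obtain ⟨g', rfl⟩ := Polynomial.map_surjective (Int.castRingHom (ZMod ℓ))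
    (ZMod.ringHom_surjective _) g
  have h2 : ((X ^ (ℓ ^ d.factorial) - X : ℤ[X]) ^ d - G * g').map (Int.castRingHom (ZMod ℓ)) = 0 := by
    rw [Polynomial.map_sub, Polynomial.map_mul, ← hg]
    simp
  have h3 : (C (ℓ : ℤ)) ∣ ((X ^ (ℓ ^ d.factorial) - X : ℤ[X]) ^ d - G * g') := by
    rw [Polynomial.C_dvd_iff_dvd_coeff]
    intro i
    have := congrArg (fun q => Polynomial.coeff q i) h2
    simp only [coeff_map, coeff_zero, eq_intCast] at this
    exact (ZMod.intCast_zmod_eq_zero_iff_dvd _ _).1 this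
  obtain ⟨k, hk⟩ := h3
  have h4 := congrArg (aeval a) hk
  simp only [map_sub, map_mul, map_pow, aeval_X, aeval_C] at h4
  have h5 : (a ^ (ℓ ^ d.factorial) - a) ^ d = aeval a G * aeval a g' + (ℓ : R) * aeval a k := by
    have : algebraMap ℤ R (ℓ : ℤ) = (ℓ : R) := by simp
    rw [this] at h4
    linear_combination h4
  have h6 : w (algebraMap R M (a ^ (ℓ ^ d.factorial) - a)) ^ d < 1 := by
    rw [← map_pow, ← map_pow, h5, map_add, map_mul, map_mul, map_natCast]
    refine lt_of_le_of_lt (h.na _ _) (max_lt ?_ ?_)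
    · rw [map_mul]
      exact lt_of_le_of_lt (mul_le_of_le_one_right (apply_nonneg _ _) (hR _)) hGa
    · rw [map_mul]
      exact lt_of_le_of_lt (mul_le_of_le_one_right (apply_nonneg _ _) (hR _)) h.lt
  exact (pow_lt_one_iff_of_nonneg (apply_nonneg _ _) hd0).1 h6

/-- Sums of small terms. -/
theorem sum_small {M ι : Type} [Field M] {w : AbsoluteValue M ℝ} {ℓ : ℕ} (h : Good M w ℓ)
    (s : Finset ι) (f : ι → M) (B : ℝ) (hB : 0 ≤ B) (hf : ∀ i ∈ s, w (f i) ≤ B) :
    w (∑ i ∈ s, f i) ≤ B := by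
  classical
  induction s using Finset.induction_on with
  | empty => simpa using hB
  | insert i s hi ih =>
    rw [sum_insert hi]
    exact (h.na _ _).trans (max_le (hf i (mem_insert_self i s))
      (ih fun j hj => hf j (mem_insert_of_mem hj)))

/-- A relation with integral coefficients which are not all divisible by `ℓ`. -/
theorem exists_rel {K ι : Type} [Field K] [NumberField K] [Fintype ι] (v : ι → K)
    (hcard : Module.finrank ℚ K < Fintype.card ι) (ℓ : ℕ) (hℓ : ℓ.Prime) :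
    ∃ g : ι → ℤ, ∑ i, (g i : K) * v i = 0 ∧ ∃ i, ¬ (ℓ : ℤ) ∣ g i := by
  classical
  have h1 : ¬ LinearIndependent ℚ v := fun hv =>
    absurd hv.fintype_card_le_finrank (not_le.2 hcard)
  rw [← LinearIndependent.iff_fractionRing (R := ℤ) (K := ℚ)] at h1
  rw [Fintype.not_linearIndependent_iff] at h1
  obtain ⟨g, hg, i, hi⟩ := h1
  have hne : (Finset.univ : Finset ι).Nonempty := ⟨i, mem_univ i⟩
  obtain ⟨g', hg', hgcd⟩ := Finset.extract_gcd g hne
  have hD : (Finset.univ : Finset ι).gcd g ≠ 0 := by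
    intro h0
    rw [Finset.gcd_eq_zero_iff] at h0
    exact hi (h0 i (mem_univ i))
  refine ⟨g', ?_, ?_⟩
  · have h2 : (((Finset.univ : Finset ι).gcd g : ℤ) : K) * ∑ i, (g' i : K) * v i = 0 := by
      rw [← hg, mul_sum]
      refine sum_congr rfl fun i _ => ?_
      rw [hg' i (mem_univ i), zsmul_eq_mul]
      push_cast
      ring
    exact (mul_eq_zero.1 h2).resolve_left (by exact_mod_cast hD)
  · by_contra hcon
    push Not at hcon
    have h3 : (ℓ : ℤ) ∣ (Finset.univ : Finset ι).gcd g' := Finset.dvd_gcd fun i _ => hcon i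
    rw [hgcd] at h3
    have h4 : (ℓ : ℤ) = 1 ∨ (ℓ : ℤ) = -1 := Int.isUnit_iff.1 (isUnit_of_dvd_one h3)
    have h5 := hℓ.two_le
    omega

/-- The residue degree. -/
theorem res_degree {K M : Type} [Field K] [NumberField K] [Field M] [Algebra K M]
    {w : AbsoluteValue M ℝ} {ℓ : ℕ} (h : Good M w ℓ) (hℓ : ℓ.Prime) (d e : ℕ) (hd : d ≠ 0)
    (hde : Module.finrank ℚ K ≤ d * e) (π : 𝓞 K)
    (hπ0 : 0 < w (algebraMap K M π)) (hπ1 : w (algebraMap K M π) < 1)
    (hπ : w (ℓ : M) ≤ w (algebraMap K M π) ^ e) (a : 𝓞 K) :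
    w (algebraMap K M ((a : K) ^ (ℓ ^ d.factorial) - (a : K))) < 1 := by
  classical
  have hR : ∀ r : 𝓞 K, w (algebraMap K M (r : K)) ≤ 1 := fun r =>
    h.int _ ((r.2 : IsIntegral ℤ (r : K)).algebraMap)
  have he : 0 < e := by
    rcases Nat.eq_zero_or_pos e with h0 | h0
    · rw [h0, mul_zero] at hde
      exact absurd (Module.finrank_pos (R := ℚ) (M := K)) (by omega)
    · exact h0
  obtain ⟨g, hg, i₀, hi₀⟩ := exists_rel (K := K) (ι := Fin (d + 1) × Fin e)
    (fun x => (a : K) ^ (x.1 : ℕ) * (π : K) ^ (x.2 : ℕ)) (by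
      rw [Fintype.card_prod, Fintype.card_fin, Fintype.card_fin, add_mul, one_mul]
      omega) ℓ hℓ
  set T : Set (Fin e) := {j | ∃ i, ¬ (ℓ : ℤ) ∣ g (i, j)} with hT
  have hTne : T.Nonempty := ⟨i₀.2, i₀.1, hi₀⟩
  obtain ⟨j₀, hj₀, hmin⟩ := WellFounded.has_min (wellFounded_lt (α := Fin e)) T hTne
  set P : Fin e → 𝓞 K := fun j => ∑ i, (g (i, j) : 𝓞 K) * a ^ (i : ℕ) with hP
  set ω : ℝ := w (algebraMap K M π) with hω
  have hsum : ∑ j, algebraMap K M (P j : K) * algebraMap K M (π : K) ^ (j : ℕ) = 0 := by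
    have h1 := congrArg (algebraMap K M) hg
    rw [map_zero, Fintype.sum_prod_type_right] at h1
    rw [← h1, map_sum]
    refine sum_congr rfl fun j _ => ?_
    have h2 : ((P j : 𝓞 K) : K) = ∑ i, (g (i, j) : K) * (a : K) ^ (i : ℕ) := by
      rw [hP]
      push_cast
      rfl
    rw [h2, ← map_pow, ← map_mul, sum_mul]
    congr 1
    refine sum_congr rfl fun i _ => ?_
    ring
  have hj : ∀ j ∈ (Finset.univ : Finset (Fin e)).erase j₀,
      w (algebraMap K M (P j : K) * algebraMap K M (π : K) ^ (j : ℕ)) ≤ ω ^ ((j₀ : ℕ) + 1) := by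
    intro j hj
    have hne : j ≠ j₀ := (mem_erase.1 hj).1
    rw [map_mul, map_pow]
    rcases lt_or_gt_of_ne hne with hlt | hgt
    · have h1 : ∀ i, (ℓ : ℤ) ∣ g (i, j) := by
        intro i
        by_contra hcon
        exact hmin j ⟨i, hcon⟩ hlt
      choose c hc using h1
      have h2 : P j = (ℓ : 𝓞 K) * ∑ i, (c i : 𝓞 K) * a ^ (i : ℕ) := by
        rw [hP]
        simp only
        rw [mul_sum]
        refine sum_congr rfl fun i _ => ?_
        rw [hc i]
        push_cast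
        ring
      have h3 : w (algebraMap K M (P j : K)) ≤ w (ℓ : M) := by
        rw [h2]
        have h4 : algebraMap K M ((((ℓ : 𝓞 K) * ∑ i, (c i : 𝓞 K) * a ^ (i : ℕ) : 𝓞 K)) : K) =
            (ℓ : M) * algebraMap K M (((∑ i, (c i : 𝓞 K) * a ^ (i : ℕ) : 𝓞 K)) : K) := by
          generalize ∑ i, (c i : 𝓞 K) * a ^ (i : ℕ) = S'
          have h5 : (((ℓ : 𝓞 K) * S' : 𝓞 K) : K) = (ℓ : K) * (S' : K) := by push_cast; rfl
          rw [h5, map_mul, map_natCast]
        rw [h4, map_mul]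
        exact mul_le_of_le_one_right (apply_nonneg _ _) (hR _)
      calc w (algebraMap K M (P j : K)) * ω ^ (j : ℕ) ≤ ω ^ e * 1 :=
            mul_le_mul (h3.trans hπ) (pow_le_one₀ hπ0.le hπ1.le) (by positivity) (by positivity)
        _ = ω ^ e := mul_one _
        _ ≤ ω ^ ((j₀ : ℕ) + 1) := pow_le_pow_of_le_one hπ0.le hπ1.le j₀.2
    · calc w (algebraMap K M (P j : K)) * ω ^ (j : ℕ) ≤ 1 * ω ^ (j : ℕ) :=
            mul_le_mul_of_nonneg_right (hR _) (by positivity)
        _ = ω ^ (j : ℕ) := one_mul _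
        _ ≤ ω ^ ((j₀ : ℕ) + 1) := pow_le_pow_of_le_one hπ0.le hπ1.le hgt
  have h0 : w (algebraMap K M (P j₀ : K)) * ω ^ (j₀ : ℕ) ≤ ω ^ ((j₀ : ℕ) + 1) := by
    have h1 := sum_erase_add (Finset.univ : Finset (Fin e))
      (fun j => algebraMap K M (P j : K) * algebraMap K M (π : K) ^ (j : ℕ)) (mem_univ j₀)
    rw [hsum] at h1
    have h2 : algebraMap K M (P j₀ : K) * algebraMap K M (π : K) ^ (j₀ : ℕ) =
        -∑ j ∈ (Finset.univ : Finset (Fin e)).erase j₀,
          algebraMap K M (P j : K) * algebraMap K M (π : K) ^ (j : ℕ) :=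
      eq_neg_of_add_eq_zero_right h1
    have h3 := sum_small h _ _ (ω ^ ((j₀ : ℕ) + 1)) (by positivity) hj
    rw [← w.map_neg, ← h2, map_mul, map_pow] at h3
    exact h3
  have h0' : w (algebraMap K M (P j₀ : K)) < 1 := by
    rw [pow_succ', mul_comm ω] at h0
    have h1 : 0 < ω ^ (j₀ : ℕ) := by positivity
    have h2 : w (algebraMap K M (P j₀ : K)) ≤ ω := by
      rw [mul_comm] at h0
      exact le_of_mul_le_mul_left h0 h1
    exact lt_of_le_of_lt h2 hπ1
  -- the polynomial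
  set G : ℤ[X] := ∑ i : Fin (d + 1), C (g (i, j₀)) * X ^ (i : ℕ) with hG
  have hGa : aeval a G = P j₀ := by
    rw [hG, hP, map_sum]
    refine sum_congr rfl fun i _ => ?_
    simp
  have hGd : G.natDegree ≤ d := by
    rw [hG]
    refine natDegree_sum_le_of_forall_le _ _ fun i _ => ?_
    exact (natDegree_C_mul_X_pow_le _ _).trans (Nat.lt_succ_iff.1 i.2)
  obtain ⟨i₁, hi₁⟩ := hj₀
  have hG0 : G.map (Int.castRingHom (ZMod ℓ)) ≠ 0 := by
    intro h1
    have h2 := congrArg (fun q => Polynomial.coeff q (i₁ : ℕ)) h1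
    simp only [coeff_map, coeff_zero, eq_intCast] at h2
    have h3 : G.coeff (i₁ : ℕ) = g (i₁, j₀) := by
      rw [hG, finset_sum_coeff]
      simp only [coeff_C_mul, coeff_X_pow]
      rw [Finset.sum_eq_single i₁]
      · simp
      · intro b _ hb
        rw [if_neg, mul_zero]
        intro hcon
        exact hb (Fin.ext hcon.symm)
      · intro hcon
        exact absurd (mem_univ _) hcon
    rw [h3] at h2
    exact hi₁ ((ZMod.intCast_zmod_eq_zero_iff_dvd _ _).1 h2)
  have hfin := small_of_poly (R := 𝓞 K) (M := M) h hℓ (fun r => hR r) d hd a G hG0 hGd (by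
    rw [hGa]
    exact h0')
  have h9 : algebraMap (𝓞 K) M (a ^ (ℓ ^ d.factorial) - a) =
      algebraMap K M ((a : K) ^ (ℓ ^ d.factorial) - (a : K)) := by
    rw [map_sub, map_pow, map_sub, map_pow]
    rfl
  rw [h9] at hfin
  exact hfin

/-- Step 2 for the level field. -/
theorem gstep2 {K M : Type} [Field K] [NumberField K] [Field M] [NumberField M] [Algebra K M]
    {w : AbsoluteValue M ℝ} {ℓ : ℕ} (h : Good M w ℓ) (hℓ : ℓ.Prime) (d e : ℕ) (hd : d ≠ 0)
    (hde : Module.finrank ℚ K ≤ d * e) (π : 𝓞 K)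
    (hπ0 : 0 < w (algebraMap K M π)) (hπ1 : w (algebraMap K M π) < 1)
    (hπ : w (ℓ : M) ≤ w (algebraMap K M π) ^ e) (a : 𝓞 K) :
    w (algebraMap K M ((a : K) ^ (ℓ ^ d.factorial) - (a : K))) ≤
      w (ℓ : M) ^ (1 / (Module.finrank ℚ K : ℝ)) := by
  have h1 := res_degree h hℓ d e hd hde π hπ0 hπ1 hπ a
  set b : 𝓞 K := a ^ (ℓ ^ d.factorial) - a with hb
  have hbK : (b : K) = (a : K) ^ (ℓ ^ d.factorial) - (a : K) := by
    rw [hb]
    rfl
  rw [← hbK] at h1 ⊢
  have h2 := step2 (K := K) h hℓ b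
  refine le_trans ?_ h2
  set Q : ℕ := ℓ ^ (Module.finrank ℚ K).factorial with hQ
  have hQ2 : 2 ≤ Q := by
    calc 2 ≤ ℓ := hℓ.two_le
      _ = ℓ ^ 1 := (pow_one _).symm
      _ ≤ Q := Nat.pow_le_pow_right hℓ.pos (Nat.factorial_pos _)
  by_contra hcon
  push Not at hcon
  have h3 : w (algebraMap K M (b : K)) ≤
      max (w (algebraMap K M (b : K) ^ Q)) (w (algebraMap K M ((b : K) ^ Q - (b : K)))) := by
    have h4 := h.sub_le (algebraMap K M (b : K) ^ Q) (algebraMap K M ((b : K) ^ Q - (b : K)))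
    have h4e : algebraMap K M (b : K) ^ Q - algebraMap K M ((b : K) ^ Q - (b : K)) =
        algebraMap K M (b : K) := by
      rw [map_sub (algebraMap K M), map_pow (algebraMap K M), sub_sub_cancel]
    rw [h4e] at h4
    exact h4
  have h5 : w (algebraMap K M (b : K)) ≤ w (algebraMap K M (b : K)) ^ Q := by
    rcases le_max_iff.1 h3 with h6 | h6
    · rw [map_pow] at h6
      exact h6
    · exact absurd hcon (not_lt.2 h6)
  have h7 : 0 < w (algebraMap K M (b : K)) := lt_of_le_of_lt (apply_nonneg _ _) hcon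
  have h8 : w (algebraMap K M (b : K)) ^ Q < w (algebraMap K M (b : K)) ^ 1 :=
    pow_lt_pow_right_of_lt_one₀ h7 h1 (by omega)
  rw [pow_one] at h8
  linarith

end Pool.Agent.H69.SX
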